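import Pool.Agent.Helper71.UN.StD

/-!
# Project UN, module INV
-/

set_option autoImplicit false

open Set Filter Topology Matrix
open scoped ContDiff ComplexConjugate

noncomputable section

namespace Pool.Agent.Helper31.UN

open Pool.Agent.Helper71.UN

private lemma cd_rt {n : ℕ} (a b : Fin n) (e : ℝ) (x y : Fin n) :
    ContDiff ℝ ∞ (fun θ : ℝ => rt a b e θ x y) := by
  have hc : ContDiff ℝ ∞ (fun θ : ℝ => Real.cos θ) := Real.contDiff_cos
  have hsn : ContDiff ℝ ∞ (fun θ : ℝ => Real.sin θ) := Real.contDiff_sin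
  simp only [rt, Matrix.of_apply]
  split_ifs
  · exact hc
  · exact hc
  · exact contDiff_const.mul hsn
  · exact (contDiff_const.mul hsn).neg
  · exact contDiff_const
  · exact contDiff_const

private lemma rt_loc {n : ℕ} (al : Fin 4 → Fin n → Bool) (u : Fin n → Fin 4) (a b : Fin n) (e θ : ℝ)
    (hA : Adm al u a b) (x c : Fin n) (h : rt a b e θ x c ≠ 0) : al (u c) x = true := by
  simp only [rt, Matrix.of_apply] at h
  split_ifs at h with h1 h2 h3 h4 h5
  · rw [h1.1, h1.2]; exact hA.self a
  · rw [h2.1, h2.2]; exact hA.self b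
  · rw [h3.1, h3.2]; exact hA.ab
  · rw [h4.1, h4.2]; exact hA.ba
  · rw [h5]; exact hA.self c
  · exact absurd rfl h

/-- **INV**. -/
theorem hINV (hs : StSTP) (hc : StCVX) (hf : StFRO) (hr : StROT) (_he : StEPP) : StINV := by
  intro n al u a b e hA hee
  obtain ⟨s1, s2, s3, s4, s5, -⟩ := hs
  obtain ⟨r1, r2, r3, r4, -⟩ := hr n u a b e hA.ne hee
  have hOK : ∀ θ, OKm al (fr (rt a b e θ) u) := fun θ =>
    (hf n al (rt a b e θ) u).2.1 (r1 θ) (fun x c h => rt_loc al u a b e θ hA x c h)
  have hone : fr (1 : Matrix (Fin n) (Fin n) ℝ) u = pu u := (hf n al 1 u).2.2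
  have key := hc n al 1 univ (fun z => fr (rt a b e (Real.pi / 2 * z 0)) u) convex_univ
    (fun l x y => by
      have hz : ContDiff ℝ ∞ (fun z : Fin 1 → ℝ => Real.pi / 2 * z 0) :=
        contDiff_const.mul (contDiff_apply ℝ ℝ (0 : Fin 1))
      have : (fun z : Fin 1 → ℝ => fr (rt a b e (Real.pi / 2 * z 0)) u l x y) =
          fun z => ∑ c, if u c = l then rt a b e (Real.pi / 2 * z 0) x c *
            rt a b e (Real.pi / 2 * z 0) y c else 0 := by
        funext z
        exact (hf n al (rt a b e (Real.pi / 2 * z 0)) u).1 l x y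
      show ContDiffOn ℝ ∞ (fun z : Fin 1 → ℝ => fr (rt a b e (Real.pi / 2 * z 0)) u l x y) univ
      rw [this]
      apply ContDiff.contDiffOn
      apply ContDiff.sum
      intro c _
      split_ifs
      · exact ((cd_rt a b e x c).comp hz).mul ((cd_rt a b e y c).comp hz)
      · exact contDiff_const)
    (fun z _ => hOK _)
    (fun s _ => stp (2 * s) - stp (2 * s - 1)) (fun _ _ => 0) (fun _ => 0) (fun _ => 0)
    (by
      rw [contDiff_pi]
      intro i
      exact (s1.comp (contDiff_const.mul contDiff_id)).sub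
        (s1.comp ((contDiff_const.mul contDiff_id).sub contDiff_const)))
    contDiff_const (fun _ => mem_univ _) (fun _ => mem_univ _)
    (fun s h => by
      funext i
      show stp (2 * s) - stp (2 * s - 1) = 0
      rw [s3 (2 * s) (by linarith), s3 (2 * s - 1) (by linarith), sub_zero])
    (fun s h => by
      funext i
      show stp (2 * s) - stp (2 * s - 1) = 0
      rw [s4 (2 * s) (by linarith), s4 (2 * s - 1) (by linarith), sub_self])
    (fun _ _ => rfl) (fun _ _ => rfl)
  have h0 : fr (rt a b e (Real.pi / 2 * (fun _ : Fin 1 => (0 : ℝ)) 0)) u = pu u := by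
    show fr (rt a b e (Real.pi / 2 * 0)) u = pu u
    rw [mul_zero, r2, hone]
  have hp : (fun s : ℝ => (fun z : Fin 1 → ℝ => fr (rt a b e (Real.pi / 2 * z 0)) u)
      ((fun s _ => stp (2 * s) - stp (2 * s - 1)) s)) =
      mu (pu (sw u a b)) (ep u a b e) (ep (sw u a b) a b (-e)) := by
    funext s l
    show fr (rt a b e (Real.pi / 2 * (stp (2 * s) - stp (2 * s - 1)))) u l =
      ep u a b e (2 * s) l + ep (sw u a b) a b (-e) (2 * s - 1) l - pu (sw u a b) l
    have hsw1 : fr (1 : Matrix (Fin n) (Fin n) ℝ) (sw u a b) = pu (sw u a b) := (hf n al 1 _).2.2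
    rcases le_total s (1 / 2) with h | h
    · have e1 : stp (2 * s - 1) = 0 := s3 _ (by linarith)
      have e2 : ep (sw u a b) a b (-e) (2 * s - 1) = pu (sw u a b) := by
        show fr (rt a b (-e) (Real.pi / 2 * stp (2 * s - 1))) (sw u a b) = _
        have r2' := (hr n u a b (-e) hA.ne (by linarith)).2.1
        rw [e1, mul_zero, r2', hsw1]
      rw [e1, e2, sub_zero, add_sub_cancel_right]
      rfl
    · have e1 : stp (2 * s) = 1 := s4 _ (by linarith)
      have e2 : ep u a b e (2 * s) = pu (sw u a b) := by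
        show fr (rt a b e (Real.pi / 2 * stp (2 * s))) u = _
        have h3 := r3 1
        rw [one_mul] at h3
        rw [e1, mul_one, h3, hsw1]
      rw [e1, e2, add_sub_cancel_left]
      show _ = fr (rt a b (-e) (Real.pi / 2 * stp (2 * s - 1))) (sw u a b) l
      rw [← r4]
      congr 3
      ring
  have hkey : Hm al (fr (rt a b e (Real.pi / 2 * (fun _ : Fin 1 => (0 : ℝ)) 0)) u)
      (fr (rt a b e (Real.pi / 2 * (fun _ : Fin 1 => (0 : ℝ)) 0)) u) _ _ := key
  rw [h0] at hkey
  rw [← hp]
  exact hkey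

end Pool.Agent.Helper31.UN
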