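import Pool.Agent.Helper71.UN.StD

/-!
# Project UN, module VXB
-/

set_option autoImplicit false

open Set Filter Topology Matrix
open scoped ContDiff ComplexConjugate

noncomputable section

namespace Pool.Agent.Helper31.UN

open Pool.Agent.Helper71.UN

private lemma hh_negneg (d z : ℂ) : hh (-d) z = hh d (-z) := by
  simp [hh]

private lemma tt_negneg (d z : ℂ) : tt (-d) z = tt d (-z) := by
  simp [tt]

private lemma wm_swap (p q : ℤ) (hpq : p ≠ q) (e θ : ℝ) (m : ℤ) (x y : Bool) :
    wm q p (-e) θ m x y = wm p q e θ m (!x) (!y) := by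
  unfold wm
  by_cases h1 : m = p
  · subst h1
    cases x <;> cases y <;> simp [hpq]
  · by_cases h2 : m = q
    · subst h2
      cases x <;> cases y <;> simp [h1]
    · simp [h1, h2]

private lemma lb_inj {k l : ℤ} (k0 : k ≠ 0) (k1 : k ≠ 1) (l0 : l ≠ 0) (l1 : l ≠ 1) (kl : k ≠ l) :
    Function.Injective (lb k l) := by
  intro i j h
  fin_cases i <;> fin_cases j <;>
    first
      | rfl
      | (exfalso; simp [lb] at h; done)
      | (exfalso; simp [lb] at h; omega)

private lemma S_eq (k l : ℤ) : ({0, 1, k, l} : Finset ℤ) = Finset.univ.image (lb k l) := by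
  ext m
  simp only [Finset.mem_insert, Finset.mem_singleton, Finset.mem_image, Finset.mem_univ, true_and]
  constructor
  · rintro (h | h | h | h)
    · exact ⟨0, by rw [h]; rfl⟩
    · exact ⟨1, by rw [h]; rfl⟩
    · exact ⟨2, by rw [h]; rfl⟩
    · exact ⟨3, by rw [h]; rfl⟩
  · rintro ⟨i, h⟩
    fin_cases i
    · exact Or.inl h.symm
    · exact Or.inr (Or.inl h.symm)
    · exact Or.inr (Or.inr (Or.inl h.symm))
    · exact Or.inr (Or.inr (Or.inr h.symm))

/-- The families with integral labels. -/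
private def MM (k l : ℤ) (M : ℂ → Fm 6) (z : ℂ) (m : ℤ) : Matrix (Fin 6) (Fin 6) ℝ :=
  ∑ i : Fin 4, if lb k l i = m then M z i else 0

private lemma MM_lb {k l : ℤ} (hi : Function.Injective (lb k l)) (M : ℂ → Fm 6) (z : ℂ) (i : Fin 4) :
    MM k l M z (lb k l i) = M z i := by
  unfold MM
  rw [Finset.sum_eq_single i]
  · rw [if_pos rfl]
  · intro j _ hj
    rw [if_neg (fun h => hj (hi h))]
  · intro h
    exact absurd (Finset.mem_univ i) h

private lemma MM_zero {k l : ℤ} (M : ℂ → Fm 6) (z : ℂ) (m : ℤ) (h : ∀ i, lb k l i ≠ m) :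
    MM k l M z m = 0 := by
  unfold MM
  exact Finset.sum_eq_zero (fun i _ => if_neg (h i))

private lemma st_rel (j : Fin 7) : st6 (j + 1) (ra6 j) = st6 j (rb6 j) ∧ st6 j (ra6 j) ≠ st6 j (rb6 j) ∧
    ra6 j ≠ rb6 j ∧ e6 j * e6 j = 1 := by
  fin_cases j
  all_goals
    refine ⟨by rfl, by decide, by decide, ?_⟩
    simp [e6]

/-- The rows near a ray. -/
private lemma ray_core (hr : StROT) {k l : ℤ} (hi : Function.Injective (lb k l)) (M : ℂ → Fm 6) (z : ℂ)
    (j : Fin 7) (φ : ℝ) (hM : M z = fr (rt (ra6 j) (rb6 j) (e6 j) φ) (st6 j)) (m : ℤ) (x : Bool)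
    (b : Fin 6) :
    MM k l M z m (if x then rb6 j else ra6 j) b =
      if b = ra6 j then wm (lb k l (st6 (j + 1) (ra6 j))) (lb k l (st6 j (ra6 j))) (e6 j) φ m x false
      else if b = rb6 j then
        wm (lb k l (st6 (j + 1) (ra6 j))) (lb k l (st6 j (ra6 j))) (e6 j) φ m x true
      else 0 := by
  obtain ⟨h1, h2, h3, h4⟩ := st_rel j
  obtain ⟨-, -, -, -, -, -, r7⟩ := hr 6 (st6 j) (ra6 j) (rb6 j) (e6 j) h3 h4
  rw [h1]
  set A := ra6 j with hA
  set B := rb6 j with hB
  set u := st6 j with hu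
  have hlne : lb k l (u B) ≠ lb k l (u A) := fun h => h2 (hi h).symm
  by_cases hm : ∃ i, lb k l i = m
  · obtain ⟨i, rfl⟩ := hm
    rw [MM_lb hi, hM]
    obtain ⟨f1, f2, f3, f4, f5⟩ := r7 φ i
    have hwm : ∀ y : Bool, wm (lb k l (u B)) (lb k l (u A)) (e6 j) φ (lb k l i) x y =
        if i = u A then (if x = y then (if x then Real.sin φ ^ 2 else Real.cos φ ^ 2)
            else e6 j * (Real.cos φ * Real.sin φ))
        else if i = u B then (if x = y then (if x then Real.cos φ ^ 2 else Real.sin φ ^ 2)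
            else - (e6 j * (Real.cos φ * Real.sin φ)))
        else 0 := by
      intro y
      unfold wm
      simp only [hi.eq_iff]
    rw [hwm false, hwm true]
    by_cases hbA : b = A
    · rw [if_pos hbA, hbA]
      cases x
      · simp only [if_true, Bool.false_eq_true, if_false]
        rw [f1]
        by_cases c1 : i = u A
        · have c2 : u B ≠ i := fun h => h2 (h.trans c1).symm
          rw [if_pos c1, if_pos c1.symm, if_neg c2, add_zero]
        · by_cases c2 : i = u B
          · rw [if_neg c1, if_pos c2, if_neg (fun h => c1 h.symm), if_pos c2.symm, zero_add]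
          · rw [if_neg c1, if_neg c2, if_neg (fun h => c1 h.symm), if_neg (fun h => c2 h.symm), zero_add]
      · simp only [if_true, Bool.true_eq_false, if_false]
        rw [f4]
        by_cases c1 : i = u A
        · have c2 : u B ≠ i := fun h => h2 (h.trans c1).symm
          rw [if_pos c1, if_pos c1.symm, if_neg c2, sub_zero]
        · by_cases c2 : i = u B
          · rw [if_neg c1, if_pos c2, if_neg (fun h => c1 h.symm), if_pos c2.symm, zero_sub]
          · rw [if_neg c1, if_neg c2, if_neg (fun h => c1 h.symm), if_neg (fun h => c2 h.symm), sub_zero]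
    · rw [if_neg hbA]
      by_cases hbB : b = B
      · rw [if_pos hbB, hbB]
        cases x
        · simp only [Bool.false_eq_true, if_false]
          rw [f3]
          by_cases c1 : i = u A
          · have c2 : u B ≠ i := fun h => h2 (h.trans c1).symm
            rw [if_pos c1, if_pos c1.symm, if_neg c2, sub_zero]
          · by_cases c2 : i = u B
            · rw [if_neg c1, if_pos c2, if_neg (fun h => c1 h.symm), if_pos c2.symm, zero_sub]
            · rw [if_neg c1, if_neg c2, if_neg (fun h => c1 h.symm), if_neg (fun h => c2 h.symm), sub_zero]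
        · simp only [if_true]
          rw [f2]
          by_cases c1 : i = u A
          · have c2 : u B ≠ i := fun h => h2 (h.trans c1).symm
            rw [if_pos c1, if_pos c1.symm, if_neg c2, add_zero]
          · by_cases c2 : i = u B
            · rw [if_neg c1, if_pos c2, if_neg (fun h => c1 h.symm), if_pos c2.symm, zero_add]
            · rw [if_neg c1, if_neg c2, if_neg (fun h => c1 h.symm), if_neg (fun h => c2 h.symm), zero_add]
      · rw [if_neg hbB]
        cases x
        · simp only [Bool.false_eq_true, if_false]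
          rw [(f5 b A hbA hbB).2, if_neg (fun h => hbA h.1)]
        · simp only [if_true]
          rw [(f5 b B hbA hbB).2, if_neg (fun h => hbB h.1)]
  · have hm' : ∀ i, lb k l i ≠ m := fun i h => hm ⟨i, h⟩
    rw [MM_zero M z m hm']
    have hwm : ∀ y : Bool, wm (lb k l (u B)) (lb k l (u A)) (e6 j) φ m x y = 0 := by
      intro y
      unfold wm
      rw [if_neg (fun h => hm' _ h.symm), if_neg (fun h => hm' _ h.symm)]
    rw [hwm, hwm]
    simp

private lemma pure_core {k l : ℤ} (hi : Function.Injective (lb k l)) (M : ℂ → Fm 6) (z : ℂ)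
    (c : Fin 6) (t : Fin 4)
    (h : ∀ (i : Fin 4) (b : Fin 6), M z i c b = if i = t ∧ b = c then 1 else 0) (m : ℤ) (b : Fin 6) :
    MM k l M z m c b = if m = lb k l t ∧ b = c then 1 else 0 := by
  by_cases hm : ∃ i, lb k l i = m
  · obtain ⟨i, rfl⟩ := hm
    rw [MM_lb hi, h]
    simp only [hi.eq_iff]
  · have hm' : ∀ i, lb k l i ≠ m := fun i h => hm ⟨i, h⟩
    rw [MM_zero M z m hm', if_neg (fun h => hm' _ h.1.symm)]
    rfl

/-- **VXB**. -/
theorem hVXB (_hf : StFRO) (hr : StROT) (hg : StGAM) (hv : StVXA) : StVXB := by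
  intro Γ η k l v₀ a a' τ s θ σ lam hη hcfg hadd hmul c
  have hi : Function.Injective (lb k l) := lb_inj hcfg.k0 hcfg.k1 hcfg.l0 hcfg.l1 hcfg.kl
  obtain ⟨M, R₀, hR, hsm, hok, hM⟩ := hv Γ η k l v₀ a a' τ (-a' + (σ : ℂ) * (v₀ + a')) s θ hη hcfg
  have hgam := hg Γ η k l v₀ a a' τ s θ σ hcfg hadd hmul
  set h : ℂ := -a' + (σ : ℂ) * (v₀ + a') with hh_def
  -- facts on `MM`
  have f_smooth : ∀ m x y, ContDiff ℝ ∞ (fun z => MM k l M z m x y) := by
    intro m x y
    by_cases hm : ∃ i, lb k l i = m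
    · obtain ⟨i, rfl⟩ := hm
      have : (fun z => MM k l M z (lb k l i) x y) = fun z => M z i x y := by
        funext z
        rw [MM_lb hi]
      rw [this]
      exact hsm i x y
    · have hm' : ∀ i, lb k l i ≠ m := fun i h => hm ⟨i, h⟩
      have : (fun z => MM k l M z m x y) = fun _ => 0 := by
        funext z
        rw [MM_zero M z m hm']
        rfl
      rw [this]
      exact contDiff_const
  have f_symm : ∀ z m, (MM k l M z m)ᵀ = MM k l M z m := by
    intro z m
    by_cases hm : ∃ i, lb k l i = m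
    · obtain ⟨i, rfl⟩ := hm
      rw [MM_lb hi]
      exact (hok z).symm i
    · have hm' : ∀ i, lb k l i ≠ m := fun i h => hm ⟨i, h⟩
      rw [MM_zero M z m hm', Matrix.transpose_zero]
  have f_idem : ∀ z m, MM k l M z m * MM k l M z m = MM k l M z m := by
    intro z m
    by_cases hm : ∃ i, lb k l i = m
    · obtain ⟨i, rfl⟩ := hm
      rw [MM_lb hi]
      exact (hok z).idem i
    · have hm' : ∀ i, lb k l i ≠ m := fun i h => hm ⟨i, h⟩
      rw [MM_zero M z m hm', Matrix.zero_mul]
  have f_zero : ∀ z m, m ∉ ({0, 1, k, l} : Finset ℤ) → MM k l M z m = 0 := by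
    intro z m hm
    apply MM_zero
    intro i hcon
    apply hm
    rw [S_eq, Finset.mem_image]
    exact ⟨i, Finset.mem_univ _, hcon⟩
  have f_sum : ∀ z, ∑ m ∈ ({0, 1, k, l} : Finset ℤ), MM k l M z m = 1 := by
    intro z
    rw [S_eq, Finset.sum_image (fun x _ y _ hxy => hi hxy)]
    rw [Finset.sum_congr rfl (fun i _ => MM_lb hi M z i)]
    exact (hok z).sum
  have f_loc : ∀ z m x y, MM k l M z m x y ≠ 0 →
      Γ m (pos6 v₀ a a' τ h y - pos6 v₀ a a' τ h x) ∧ Γ m (pos6 v₀ a a' τ h x - pos6 v₀ a a' τ h y) := by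
    intro z m x y hne
    by_cases hm : ∃ i, lb k l i = m
    · obtain ⟨i, rfl⟩ := hm
      rw [MM_lb hi] at hne
      obtain ⟨g1, g2⟩ := (hok z).loc i x y hne
      exact ⟨hgam i x y g1 g2, hgam i y x g2 g1⟩
    · have hm' : ∀ i, lb k l i ≠ m := fun i h => hm ⟨i, h⟩
      rw [MM_zero M z m hm'] at hne
      exact absurd rfl hne
  have f_ray : ∀ z, R₀ ≤ ‖z‖ → ∀ j : Fin 7, 0 < tt (d6 v₀ a a' τ h j) z →
      |hh (d6 v₀ a a' τ h j) z| ≤ 1 → ∀ (m : ℤ) (x : Bool) (b : Fin 6),
      MM k l M z m (if x then rb6 j else ra6 j) b =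
      if b = ra6 j then wm (lb k l (st6 (j + 1) (ra6 j))) (lb k l (st6 j (ra6 j))) (e6 j)
        (Real.pi / 2 * prof (hh (d6 v₀ a a' τ h j) z)) m x false
      else if b = rb6 j then
        wm (lb k l (st6 (j + 1) (ra6 j))) (lb k l (st6 j (ra6 j))) (e6 j)
        (Real.pi / 2 * prof (hh (d6 v₀ a a' τ h j) z)) m x true
      else 0 := by
    intro z hz j h1 h2 m x b
    exact ray_core hr hi M z j _ ((hM z hz).1 j h1 h2) m x b
  have f_pure : ∀ z, R₀ ≤ ‖z‖ → ∀ c' : Fin 6, (∀ j : Fin 7, (ra6 j = c' ∨ rb6 j = c') →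
        ¬ (0 < tt (d6 v₀ a a' τ h j) z ∧ |hh (d6 v₀ a a' τ h j) z| ≤ 1)) →
      ∀ (m : ℤ) (b : Fin 6), MM k l M z m c' b =
        if m = lb k l (stz6 v₀ a a' τ h z c') ∧ b = c' then 1 else 0 := by
    intro z hz c' hc' m b
    exact pure_core hi M z c' _ ((hM z hz).2 c' hc') m b
  have hneg : ContDiff ℝ ∞ (fun z : ℂ => -z) := contDiff_neg
  cases c
  · -- the class `false`
    refine ⟨fun z m => MM k l M (-z) m, R₀, hR, fun m x y => (f_smooth m x y).comp hneg,
      fun z m => f_symm (-z) m, fun z m => f_idem (-z) m, fun z m hm => f_zero (-z) m hm,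
      fun z => f_sum (-z), ?_, ?_, ?_⟩
    · intro z m x y hne
      have := (f_loc (-z) m x y hne).2
      show Γ m (-pos6 v₀ a a' τ h y - -pos6 v₀ a a' τ h x)
      have he : -pos6 v₀ a a' τ h y - -pos6 v₀ a a' τ h x =
        pos6 v₀ a a' τ h x - pos6 v₀ a a' τ h y := by ring
      rw [he]
      exact this
    · rintro ⟨jc, j⟩ hj z hz h1 h2 m x b
      have hjc : jc = false := hj
      subst hjc
      have hz' : R₀ ≤ ‖-z‖ := by rw [norm_neg]; exact hz
      change 0 < tt (-d6 v₀ a a' τ h j) z at h1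
      change |hh (-d6 v₀ a a' τ h j) z| ≤ 1 at h2
      rw [tt_negneg] at h1
      rw [hh_negneg] at h2
      have key := f_ray (-z) hz' j h1 h2 m (!x) b
      have hne : lb k l (st6 (j + 1) (ra6 j)) ≠ lb k l (st6 j (ra6 j)) := by
        intro hcon
        have := hi hcon
        obtain ⟨q1, q2, -, -⟩ := st_rel j
        exact q2 (by rw [← q1, this])
      show MM k l M (-z) m (if x then ra6 j else rb6 j) b =
        if b = rb6 j then wm (lb k l (st6 j (ra6 j))) (lb k l (st6 (j + 1) (ra6 j))) (- e6 j)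
          (Real.pi / 2 * prof (hh (-d6 v₀ a a' τ h j) z)) m x false
        else if b = ra6 j then wm (lb k l (st6 j (ra6 j))) (lb k l (st6 (j + 1) (ra6 j))) (- e6 j)
          (Real.pi / 2 * prof (hh (-d6 v₀ a a' τ h j) z)) m x true
        else 0
      rw [hh_negneg, wm_swap _ _ hne, wm_swap _ _ hne]
      have hrow : (if (!x) = true then rb6 j else ra6 j) = (if x = true then ra6 j else rb6 j) := by
        cases x <;> simp
      rw [hrow] at key
      rw [key]
      have hab : ra6 j ≠ rb6 j := (st_rel j).2.2.1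
      by_cases c1 : b = ra6 j
      · have c2 : ¬ b = rb6 j := fun hb => hab (c1.symm.trans hb)
        rw [if_pos c1, if_neg c2, if_pos c1]
        simp
      · by_cases c2 : b = rb6 j
        · rw [if_neg c1, if_pos c2, if_pos c2]
          simp
        · rw [if_neg c1, if_neg c2, if_neg c2, if_neg c1]
    · intro c' z hz hc' m b
      have hz' : R₀ ≤ ‖-z‖ := by rw [norm_neg]; exact hz
      apply f_pure (-z) hz' c'
      intro j hj hcon
      have := hc' (false, j) rfl (hj.symm)
      apply this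
      show 0 < tt (-d6 v₀ a a' τ h j) z ∧ |hh (-d6 v₀ a a' τ h j) z| ≤ 1
      rw [tt_negneg, hh_negneg]
      exact hcon
  · -- the class `true`
    refine ⟨fun z m => MM k l M z m, R₀, hR, f_smooth, f_symm, f_idem, f_zero, f_sum, ?_, ?_, ?_⟩
    · intro z m x y hne
      exact (f_loc z m x y hne).1
    · rintro ⟨jc, j⟩ hj z hz h1 h2 m x b
      have hjc : jc = true := hj
      subst hjc
      exact f_ray z hz j h1 h2 m x b
    · intro c' z hz hc' m b
      apply f_pure z hz c'
      intro j hj hcon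
      exact hc' (true, j) rfl hj hcon

end Pool.Agent.Helper31.UN
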